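import Pool.Agent.Helper62.VF.Thm

/-!
# Verra fourfolds attached to the same cubic fourfold are birational (MP_7cc55e_ag, Q1)

Let `X : w² = F` and `X' : w² = F'` be Verra fourfolds (`F`, `F'` of bidegree `(2, 2)` with smooth zero divisor), and let `G`, `G'` be
cubic forms in six variables attached to quadric surfaces on `X` and `X'`. If the cubic fourfolds `G = 0` and `G' = 0` are projectively
equivalent then `X` and `X'` are birational.
-/

set_option autoImplicit false

namespace Pool.Agent.Results.MP_7cc55e_ag.CommonCubic

open Pool.Agent.Helper62.VF

theorem result (F F' : BiForm) (G G' : MvPolynomial (Fin 6) ℂ) (hF : Smooth F) (hF' : Smooth F')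
    (h : HasCubic F G) (h' : HasCubic F' G') (hG : ProjEquiv G G') : Birational F F' :=
  birational_of hF hF' h h' hG

end Pool.Agent.Results.MP_7cc55e_ag.CommonCubic
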